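import Mathlib
import Pool.Agent.V11205.MC.Base

namespace Pool.Agent.V11205.MC

open Filter Topology

/-- `μ(n) = max_t r_n(t)`. -/
noncomputable def mu (n : ℕ) : ℕ := sSup (Set.range (r n))

lemma r_le (n t : ℕ) : r n t ≤ (M n ×ˢ M n).card := Finset.card_filter_le _ _

lemma r_bdd (n : ℕ) : BddAbove (Set.range (r n)) :=
  ⟨_, by rintro _ ⟨t, rfl⟩; exact r_le n t⟩

lemma r_le_mu (n t : ℕ) : r n t ≤ mu n := le_csSup (r_bdd n) ⟨t, rfl⟩

/-- the maximum is attained -/
lemma mu_attained (n : ℕ) : ∃ t, r n t = mu n :=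
  Nat.sSup_mem (Set.range_nonempty _) (r_bdd n)

/-- `N * ∏_{p ∈ I} p` is a multinomial coefficient, where `N = n! / ∏_{p ∈ Q} p!`. -/
lemma mem_M_prod (n : ℕ) (Q I : Finset ℕ) (hQ : ∀ p ∈ Q, p.Prime) (hI : I ⊆ Q)
    (hn : ∑ p ∈ Q, p ≤ n) :
    0 < n.factorial / ∏ p ∈ Q, p.factorial ∧
    (n.factorial / ∏ p ∈ Q, p.factorial) * ∏ p ∈ I, p ∈ M n := by
  classical
  -- the parts of the whole family
  have hdvd : (∏ p ∈ Q, p.factorial) ∣ n.factorial := by
    have h1 := prod_dvd (Multiset.replicate (n - ∑ p ∈ Q, p) 1 + Q.val)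
    have h2 : (Multiset.replicate (n - ∑ p ∈ Q, p) 1 + Q.val).sum = n := by
      rw [Multiset.sum_add, Multiset.sum_replicate]
      have : Q.val.sum = ∑ p ∈ Q, p := by rw [Finset.sum_val]; rfl
      rw [this]
      simp only [smul_eq_mul, mul_one]
      omega
    rw [h2, Multiset.map_add, Multiset.prod_add, Multiset.map_replicate,
      Multiset.prod_replicate, Nat.factorial_one, one_pow, one_mul] at h1
    exact h1
  have hPpos : 0 < ∏ p ∈ Q, p.factorial := Finset.prod_pos fun p _ => Nat.factorial_pos p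
  have hNpos : 0 < n.factorial / ∏ p ∈ Q, p.factorial :=
    Nat.div_pos (Nat.le_of_dvd (Nat.factorial_pos n) hdvd) hPpos
  refine ⟨hNpos, ?_⟩
  -- the parts for `I`
  set s : Multiset ℕ := (Q \ I).val + I.val.map (fun p => p - 1) with hs
  have hsum : s.sum ≤ n := by
    have e1 : s.sum = ∑ p ∈ Q \ I, p + ∑ p ∈ I, (p - 1) := by
      rw [hs, Multiset.sum_add, Finset.sum_val]
      rfl
    have e2 : ∑ p ∈ I, (p - 1) ≤ ∑ p ∈ I, p := Finset.sum_le_sum fun p _ => Nat.sub_le _ _
    have e3 : ∑ p ∈ Q \ I, p + ∑ p ∈ I, p = ∑ p ∈ Q, p := Finset.sum_sdiff hI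
    omega
  have hprod : (s.map Nat.factorial).prod = (∏ p ∈ Q \ I, p.factorial) *
      ∏ p ∈ I, (p - 1).factorial := by
    rw [hs, Multiset.map_add, Multiset.prod_add, Multiset.map_map]
    rfl
  have hrel : (s.map Nat.factorial).prod * ∏ p ∈ I, p = ∏ p ∈ Q, p.factorial := by
    rw [hprod, mul_assoc, ← Finset.prod_mul_distrib, ← Finset.prod_sdiff hI]
    congr 1
    refine Finset.prod_congr rfl fun p hp => ?_
    have := (hQ p (hI hp)).pos
    rw [mul_comm]
    exact Nat.mul_factorial_pred (by omega)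
  have hm := mem_M (n := n) (Multiset.replicate (n - s.sum) 1 + s) (by
    intro i hi
    rw [Multiset.mem_add] at hi
    rcases hi with h | h
    · rw [Multiset.eq_of_mem_replicate h]; exact Nat.one_pos
    · rw [hs, Multiset.mem_add] at h
      rcases h with h | h
      · exact (hQ i ((Finset.mem_sdiff.1 (Finset.mem_def.2 h)).1)).pos
      · rw [Multiset.mem_map] at h
        obtain ⟨p, hp, rfl⟩ := h
        have := (hQ p (hI (Finset.mem_def.2 hp))).two_le
        omega) (by
    rw [Multiset.sum_add, Multiset.sum_replicate]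
    simp only [smul_eq_mul, mul_one]
    omega)
  rw [Multiset.map_add, Multiset.prod_add, Multiset.map_replicate, Multiset.prod_replicate] at hm
  simp only [Nat.factorial_one, one_pow, one_mul] at hm
  have e : n.factorial / (s.map Nat.factorial).prod =
      (n.factorial / ∏ p ∈ Q, p.factorial) * ∏ p ∈ I, p := by
    obtain ⟨R, hR⟩ := hdvd
    have hpos2 : 0 < (s.map Nat.factorial).prod := by
      rcases Nat.eq_zero_or_pos (s.map Nat.factorial).prod with h | h
      · rw [← hrel, h, zero_mul] at hPpos; exact absurd hPpos (lt_irrefl _)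
      · exact h
    rw [hR, Nat.mul_div_cancel_left _ hPpos, ← hrel, mul_assoc,
      Nat.mul_div_cancel_left _ hpos2, mul_comm]
  rwa [e] at hm

/-- The pigeonhole bound. -/
lemma pigeon (n m k : ℕ) (Q : Finset ℕ) (hQ : ∀ p ∈ Q, p.Prime) (hm : ∀ p ∈ Q, p ≤ m)
    (hn : ∑ p ∈ Q, p ≤ n) :
    (Q.card.choose k) ^ 2 < (2 * m ^ k + 1) * (2 * mu n + 1) := by
  classical
  set N := n.factorial / ∏ p ∈ Q, p.factorial with hN
  have hNpos : 0 < N := (mem_M_prod n Q ∅ hQ (Finset.empty_subset _) hn).1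
  set u : Finset ℕ → ℕ := fun I => ∏ p ∈ I, p with hu
  set P := Finset.powersetCard k Q with hP
  have hPm : ∀ I ∈ P, I ⊆ Q ∧ I.card = k := fun I hI => Finset.mem_powersetCard.1 hI
  have hmem : ∀ I ∈ P, N * u I ∈ M n := fun I hI => (mem_M_prod n Q I hQ (hPm I hI).1 hn).2
  have huinj : ∀ I ∈ P, ∀ J ∈ P, u I = u J → I = J := by
    intro I hI J hJ h
    have h1 := Nat.primeFactors_prod (fun p hp => hQ p ((hPm I hI).1 hp))
    have h2 := Nat.primeFactors_prod (fun p hp => hQ p ((hPm J hJ).1 hp))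
    rw [← h1, ← h2]
    exact congrArg Nat.primeFactors h
  have hule : ∀ I ∈ P, u I ≤ m ^ k := by
    intro I hI
    rw [← (hPm I hI).2]
    exact Finset.prod_le_pow_card _ _ _ fun p hp => hm p ((hPm I hI).1 hp)
  set S := P ×ˢ P with hS
  have hScard : S.card = (Q.card.choose k) ^ 2 := by
    rw [hS, Finset.card_product, hP, Finset.card_powersetCard, sq]
  set T := Finset.range (2 * m ^ k + 1) with hT
  have hmaps : ∀ a ∈ S, (fun a : Finset ℕ × Finset ℕ => u a.1 + u a.2) a ∈ T := by
    intro a ha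
    rw [hS, Finset.mem_product] at ha
    have h1 := hule _ ha.1
    have h2 := hule _ ha.2
    rw [hT, Finset.mem_range]
    simp only
    omega
  have hTcard : T.card = 2 * m ^ k + 1 := by rw [hT, Finset.card_range]
  obtain ⟨y, hy, hfib⟩ := Finset.exists_le_card_fiber_of_mul_le_card_of_maps_to
    (n := S.card / T.card) hmaps ⟨0, by rw [hT, Finset.mem_range]; omega⟩
    (Nat.mul_div_le _ _)
  -- the fiber is bounded by twice the number of representations
  set fib := S.filter (fun a => u a.1 + u a.2 = y) with hfibdef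
  have hr : fib.card ≤ 2 * r n (N * y) := by
    set R := (M n ×ˢ M n).filter (fun xy => xy.1 ≤ xy.2 ∧ xy.1 + xy.2 = N * y) with hR
    have hRr : r n (N * y) = R.card := rfl
    set A := fib.filter (fun a => u a.1 ≤ u a.2) with hA
    set B := fib.filter (fun a => u a.2 ≤ u a.1) with hB
    have hAB : fib ⊆ A ∪ B := by
      intro a ha
      rw [Finset.mem_union]
      rcases le_total (u a.1) (u a.2) with h | h
      · exact Or.inl (Finset.mem_filter.2 ⟨ha, h⟩)
      · exact Or.inr (Finset.mem_filter.2 ⟨ha, h⟩)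
    have hfibm : ∀ a ∈ fib, a.1 ∈ P ∧ a.2 ∈ P ∧ u a.1 + u a.2 = y := by
      intro a ha
      rw [hfibdef, Finset.mem_filter, hS, Finset.mem_product] at ha
      exact ⟨ha.1.1, ha.1.2, ha.2⟩
    have hAc : A.card ≤ R.card := by
      refine Finset.card_le_card_of_injOn (fun a => (N * u a.1, N * u a.2)) ?_ ?_
      · intro a ha
        have ha := Finset.mem_coe.1 ha
        rw [hA, Finset.mem_filter] at ha
        obtain ⟨h1, h2, h3⟩ := hfibm a ha.1
        refine Finset.mem_coe.2 ?_
        rw [hR, Finset.mem_filter, Finset.mem_product]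
        exact ⟨⟨hmem _ h1, hmem _ h2⟩, Nat.mul_le_mul_left _ ha.2, by
          simp only; rw [← mul_add, h3]⟩
      · intro a ha b hb h
        have ha := Finset.mem_coe.1 ha
        have hb := Finset.mem_coe.1 hb
        rw [hA, Finset.mem_filter] at ha hb
        obtain ⟨h1, h2, _⟩ := hfibm a ha.1
        obtain ⟨h3, h4, _⟩ := hfibm b hb.1
        simp only [Prod.mk.injEq] at h
        exact Prod.ext (huinj _ h1 _ h3 (Nat.eq_of_mul_eq_mul_left hNpos h.1))
          (huinj _ h2 _ h4 (Nat.eq_of_mul_eq_mul_left hNpos h.2))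
    have hBc : B.card ≤ R.card := by
      refine Finset.card_le_card_of_injOn (fun a => (N * u a.2, N * u a.1)) ?_ ?_
      · intro a ha
        have ha := Finset.mem_coe.1 ha
        rw [hB, Finset.mem_filter] at ha
        obtain ⟨h1, h2, h3⟩ := hfibm a ha.1
        refine Finset.mem_coe.2 ?_
        rw [hR, Finset.mem_filter, Finset.mem_product]
        exact ⟨⟨hmem _ h2, hmem _ h1⟩, Nat.mul_le_mul_left _ ha.2, by
          simp only; rw [← mul_add, add_comm, h3]⟩
      · intro a ha b hb h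
        have ha := Finset.mem_coe.1 ha
        have hb := Finset.mem_coe.1 hb
        rw [hB, Finset.mem_filter] at ha hb
        obtain ⟨h1, h2, _⟩ := hfibm a ha.1
        obtain ⟨h3, h4, _⟩ := hfibm b hb.1
        simp only [Prod.mk.injEq] at h
        exact Prod.ext (huinj _ h1 _ h3 (Nat.eq_of_mul_eq_mul_left hNpos h.2))
          (huinj _ h2 _ h4 (Nat.eq_of_mul_eq_mul_left hNpos h.1))
    calc fib.card ≤ (A ∪ B).card := Finset.card_le_card hAB
      _ ≤ A.card + B.card := Finset.card_union_le _ _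
      _ ≤ 2 * R.card := by omega
      _ = _ := by rw [hRr]
  have h1 : S.card / T.card ≤ 2 * mu n :=
    hfib.trans (hr.trans (Nat.mul_le_mul_left _ (r_le_mu _ _)))
  have hTpos : 0 < T.card := by rw [hTcard]; omega
  have h2 : S.card < T.card * (2 * mu n + 1) := by
    have := Nat.lt_mul_div_succ S.card hTpos
    calc S.card < T.card * (S.card / T.card + 1) := this
      _ ≤ _ := Nat.mul_le_mul_left _ (by omega)
  rw [hScard, hTcard] at h2
  exact h2

end Pool.Agent.V11205.MC
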