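import Mathlib
import Pool.Agent.V11205.MC.Mu

namespace Pool.Agent.V11205.MC

open Filter Topology

/-- `π(m)^4 ≥ m^3` for large `m`. -/
lemma many_primes : ∀ᶠ m : ℕ in atTop, m ^ 3 ≤ (Nat.primeCounting m) ^ 4 := by
  have h1 : ∀ᶠ x : ℝ in atTop, ‖Real.log x‖ ≤ (1 / 8 : ℝ) * ‖x ^ (1 / 4 : ℝ)‖ :=
    (isLittleO_log_rpow_atTop (by norm_num : (0 : ℝ) < 1 / 4)).def (by norm_num)
  have h2 : ∀ᶠ m : ℕ in atTop, ‖Real.log (m : ℝ)‖ ≤ (1 / 8 : ℝ) * ‖(m : ℝ) ^ (1 / 4 : ℝ)‖ :=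
    tendsto_natCast_atTop_atTop.eventually h1
  filter_upwards [h2, eventually_ge_atTop 16] with m hm hm16
  have hmR : (16 : ℝ) ≤ (m : ℝ) := by exact_mod_cast hm16
  have hpos : (0 : ℝ) < (m : ℝ) := by linarith
  have hlogpos : 0 < Real.log (m : ℝ) := Real.log_pos (by linarith)
  have hq : 0 < (m : ℝ) ^ (1 / 4 : ℝ) := Real.rpow_pos_of_pos hpos _
  rw [Real.norm_of_nonneg hlogpos.le, Real.norm_of_nonneg hq.le] at hm
  have hqle : (m : ℝ) ^ (1 / 4 : ℝ) ≤ (m : ℝ) := by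
    calc (m : ℝ) ^ (1 / 4 : ℝ) ≤ (m : ℝ) ^ (1 : ℝ) :=
          Real.rpow_le_rpow_of_exponent_le (by linarith) (by norm_num)
      _ = m := Real.rpow_one _
  have hlog1 : Real.log ((m : ℝ) + 1) ≤ Real.log 2 + Real.log m := by
    rw [← Real.log_mul (by norm_num) (by linarith)]
    exact Real.log_le_log (by linarith) (by linarith)
  have hl2 := Real.log_two_gt_d9
  have hl2' := Real.log_two_lt_d9
  have hnum : (m : ℝ) / 2 ≤ m * Real.log 2 - Real.log (m + 1) := by
    have : (0.69 : ℝ) * m ≤ m * Real.log 2 := by nlinarith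
    nlinarith
  have hpi := Chebyshev.pi_ge m
  have hmain : (m : ℝ) ^ (3 / 4 : ℝ) ≤ (Nat.primeCounting m : ℝ) := by
    refine le_trans ?_ hpi
    rw [le_div_iff₀ hlogpos]
    have e : (m : ℝ) ^ (3 / 4 : ℝ) * (m : ℝ) ^ (1 / 4 : ℝ) = m := by
      rw [← Real.rpow_add hpos]; norm_num
    have h3 : 0 < (m : ℝ) ^ (3 / 4 : ℝ) := Real.rpow_pos_of_pos hpos _
    calc (m : ℝ) ^ (3 / 4 : ℝ) * Real.log m
        ≤ (m : ℝ) ^ (3 / 4 : ℝ) * (1 / 8 * (m : ℝ) ^ (1 / 4 : ℝ)) := by gcongr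
      _ = m / 8 := by rw [← mul_assoc, mul_comm _ (1 / 8 : ℝ), mul_assoc, e]; ring
      _ ≤ m / 2 := by linarith
      _ ≤ _ := hnum
  have h4 : ((m : ℝ) ^ (3 / 4 : ℝ)) ^ 4 = (m : ℝ) ^ 3 := by
    rw [← Real.rpow_natCast, ← Real.rpow_mul hpos.le, ← Real.rpow_natCast]
    norm_num
  have h5 : (m : ℝ) ^ 3 ≤ (Nat.primeCounting m : ℝ) ^ 4 := by
    rw [← h4]
    exact pow_le_pow_left₀ (Real.rpow_nonneg hpos.le _) hmain 4
  exact_mod_cast h5

/-- `μ(n)` grows faster than every power of `n`: explicit form. -/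
lemma mu_lower (j : ℕ) (hj : 1 ≤ j) : ∃ A : ℕ, 0 < A ∧ ∀ᶠ n : ℕ in atTop,
    n ^ j ≤ A * (2 * mu n + 1) := by
  classical
  set k := 4 * j with hk
  refine ⟨4 ^ j * (3 * (4 ^ k * (k.factorial) ^ 2)), by positivity, ?_⟩
  have hsqrt : Tendsto Nat.sqrt atTop atTop := by
    refine tendsto_atTop.2 fun b => ?_
    filter_upwards [eventually_ge_atTop (b * b)] with n hn
    exact Nat.le_sqrt.2 hn
  have hpi : ∀ᶠ m : ℕ in atTop, 2 * k ≤ Nat.primeCounting m := by
    filter_upwards [many_primes, eventually_ge_atTop ((2 * k + 1) ^ 4)] with m h1 h2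
    by_contra hlt
    have h3 : (Nat.primeCounting m) ^ 4 ≤ (2 * k + 1) ^ 4 := Nat.pow_le_pow_left (by omega) 4
    have h4 : m < m ^ 3 := by
      have hm2 : 2 ≤ m := by
        have : 2 ≤ (2 * k + 1) ^ 4 := by
          calc 2 ≤ 2 * k + 1 := by omega
            _ = (2 * k + 1) ^ 1 := (pow_one _).symm
            _ ≤ (2 * k + 1) ^ 4 := Nat.pow_le_pow_right (by omega) (by norm_num)
        omega
      calc m = m ^ 1 := (pow_one _).symm
        _ < m ^ 3 := Nat.pow_lt_pow_right (by omega) (by norm_num)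
    omega
  filter_upwards [hsqrt.eventually many_primes, hsqrt.eventually hpi,
    eventually_ge_atTop 1] with n h1 h2 hn1
  set m := Nat.sqrt n with hm
  have hm1 : 1 ≤ m := by
    rw [hm]; exact Nat.le_sqrt.2 (by omega)
  set Q := (Finset.range (m + 1)).filter Nat.Prime with hQ
  have hQp : ∀ p ∈ Q, p.Prime := fun p hp => (Finset.mem_filter.1 hp).2
  have hQm : ∀ p ∈ Q, p ≤ m := fun p hp => by
    have := Finset.mem_range.1 (Finset.mem_filter.1 hp).1
    omega
  have hcard : Nat.primeCounting m = Q.card := Nat.count_eq_card_filter_range _ _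
  have hcardm : Q.card ≤ m := by
    have : Q ⊆ Finset.Icc 1 m := by
      intro p hp
      rw [Finset.mem_Icc]
      exact ⟨(hQp p hp).pos, hQm p hp⟩
    have := Finset.card_le_card this
    simpa using this
  have hsum : ∑ p ∈ Q, p ≤ n := by
    calc ∑ p ∈ Q, p ≤ Q.card * m := by
          rw [← smul_eq_mul]; exact Finset.sum_le_card_nsmul _ _ _ hQm
      _ ≤ m * m := Nat.mul_le_mul_right _ hcardm
      _ ≤ n := Nat.sqrt_le n
  have hpg := pigeon n m k Q hQp hQm hsum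
  set N := Q.card with hN
  rw [hcard] at h1 h2
  -- the binomial coefficient
  have hch : N ^ k ≤ 2 ^ k * (k.factorial * N.choose k) := by
    calc N ^ k ≤ (2 * (N + 1 - k)) ^ k := Nat.pow_le_pow_left (by omega) k
      _ = 2 ^ k * (N + 1 - k) ^ k := mul_pow _ _ _
      _ ≤ 2 ^ k * N.descFactorial k :=
          Nat.mul_le_mul_left _ (Nat.pow_sub_le_descFactorial N k)
      _ = _ := by rw [Nat.descFactorial_eq_factorial_mul_choose]
  have hch2 : (N ^ k) ^ 2 ≤ 4 ^ k * (k.factorial) ^ 2 * (N.choose k) ^ 2 := by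
    calc (N ^ k) ^ 2 ≤ (2 ^ k * (k.factorial * N.choose k)) ^ 2 := Nat.pow_le_pow_left hch 2
      _ = (2 ^ k) ^ 2 * (k.factorial) ^ 2 * (N.choose k) ^ 2 := by ring
      _ = _ := by rw [← pow_mul, mul_comm k 2, pow_mul]; norm_num
  have hNk : (m ^ (4 * j)) * m ^ (2 * j) ≤ (N ^ k) ^ 2 := by
    calc (m ^ (4 * j)) * m ^ (2 * j) = (m ^ 3) ^ (2 * j) := by rw [← pow_add, ← pow_mul]; ring_nf
      _ ≤ (N ^ 4) ^ (2 * j) := Nat.pow_le_pow_left h1 _
      _ = (N ^ k) ^ 2 := by rw [← pow_mul, ← pow_mul, hk]; ring_nf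
  have hmk : 0 < m ^ (4 * j) := pow_pos (by omega) _
  have h3 : (N.choose k) ^ 2 ≤ 3 * m ^ (4 * j) * (2 * mu n + 1) := by
    calc (N.choose k) ^ 2 ≤ (2 * m ^ k + 1) * (2 * mu n + 1) := hpg.le
      _ ≤ 3 * m ^ (4 * j) * (2 * mu n + 1) := by
          apply Nat.mul_le_mul_right
          rw [← hk] at hmk ⊢
          omega
  have h4 : m ^ (2 * j) ≤ 3 * (4 ^ k * (k.factorial) ^ 2) * (2 * mu n + 1) := by
    refine Nat.le_of_mul_le_mul_left ?_ hmk
    calc (m ^ (4 * j)) * m ^ (2 * j) ≤ (N ^ k) ^ 2 := hNk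
      _ ≤ 4 ^ k * (k.factorial) ^ 2 * (N.choose k) ^ 2 := hch2
      _ ≤ 4 ^ k * (k.factorial) ^ 2 * (3 * m ^ (4 * j) * (2 * mu n + 1)) :=
          Nat.mul_le_mul_left _ h3
      _ = _ := by ring
  have h5 : n ≤ 4 * m ^ 2 := by
    have h6 : n < (m + 1) * (m + 1) := Nat.lt_succ_sqrt n
    nlinarith
  calc n ^ j ≤ (4 * m ^ 2) ^ j := Nat.pow_le_pow_left h5 j
    _ = 4 ^ j * m ^ (2 * j) := by rw [mul_pow, ← pow_mul]
    _ ≤ 4 ^ j * (3 * (4 ^ k * (k.factorial) ^ 2) * (2 * mu n + 1)) := Nat.mul_le_mul_left _ h4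
    _ = _ := by ring

/-- `μ(n)` grows faster than every power of `n`. -/
lemma mu_tendsto (k : ℕ) : Tendsto (fun n : ℕ => (mu n : ℝ) / (n : ℝ) ^ k) atTop atTop := by
  obtain ⟨A, hA, hev⟩ := mu_lower (k + 1) (by omega)
  have hAR : (0 : ℝ) < A := by exact_mod_cast hA
  apply tendsto_atTop_mono' atTop (f₁ := fun n : ℕ => ((n : ℝ) / A - 1) / 2)
  · filter_upwards [hev, eventually_ge_atTop 1] with n hn hn1
    have hn1' : (1 : ℝ) ≤ (n : ℝ) := by exact_mod_cast hn1
    have hnk : (1 : ℝ) ≤ (n : ℝ) ^ k := one_le_pow₀ hn1'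
    have h1 : (n : ℝ) ^ (k + 1) ≤ A * (2 * (mu n : ℝ) + 1) := by exact_mod_cast hn
    rw [le_div_iff₀ (by linarith)]
    have h2 : (n : ℝ) / A * (n : ℝ) ^ k = (n : ℝ) ^ (k + 1) / A := by rw [pow_succ]; ring
    have h3 : (n : ℝ) ^ (k + 1) / A ≤ 2 * (mu n : ℝ) + 1 := by
      rw [div_le_iff₀ hAR]; linarith
    nlinarith
  · apply Tendsto.atTop_div_const (by norm_num)
    exact tendsto_atTop_add_const_right _ _
      (tendsto_natCast_atTop_atTop.atTop_div_const hAR)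

/-- `|𝓜_n| ≤ D(n+5)` -/
lemma card_M_le_D (n : ℕ) : (M n).card ≤ D (n + 5) := by
  classical
  rw [D_eq]
  refine Finset.card_le_card_of_injOn
    (fun v => 4 * ((n + 5).factorial / (12 * (n.factorial / v)))) ?_ ?_
  · intro v hv
    have hv := Finset.mem_coe.1 hv
    unfold M at hv
    rw [Finset.mem_image] at hv
    obtain ⟨p, -, rfl⟩ := hv
    have hd := prod_dvd p.parts
    rw [p.parts_sum] at hd
    have e : n.factorial / (n.factorial / (p.parts.map Nat.factorial).prod) =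
        (p.parts.map Nat.factorial).prod := Nat.div_div_self hd (Nat.factorial_ne_zero n)
    have h2 := two_le_r (n + 5) p.parts (fun i hi => p.parts_pos hi) (by
      rw [p.parts_sum]; omega)
    refine Finset.mem_coe.2 (Finset.mem_filter.2 ?_)
    simp only [e]
    exact ⟨mem_F_of_r (by omega), h2.2⟩
  · intro v hv w hw h
    have key : ∀ v ∈ M n, ∃ S, 0 < S ∧ S ∣ n.factorial ∧ v = n.factorial / S ∧
        n.factorial / v = S ∧ 12 * S ∣ (n + 5).factorial := by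
      intro v hv
      unfold M at hv
      rw [Finset.mem_image] at hv
      obtain ⟨p, -, rfl⟩ := hv
      have hd := prod_dvd p.parts
      rw [p.parts_sum] at hd
      have e : n.factorial / (n.factorial / (p.parts.map Nat.factorial).prod) =
          (p.parts.map Nat.factorial).prod := Nat.div_div_self hd (Nat.factorial_ne_zero n)
      have h2 := two_le_r (n + 5) p.parts (fun i hi => p.parts_pos hi) (by
        rw [p.parts_sum]; omega)
      exact ⟨_, Nat.pos_of_dvd_of_pos hd (Nat.factorial_pos n), hd, rfl, e, h2.1⟩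
    obtain ⟨S, hS0, hS1, hS2, hS3, hS4⟩ := key v (Finset.mem_coe.1 hv)
    obtain ⟨S', hS0', hS1', hS2', hS3', hS4'⟩ := key w (Finset.mem_coe.1 hw)
    simp only [hS3, hS3'] at h
    have h1 : (n + 5).factorial / (12 * S) = (n + 5).factorial / (12 * S') := by omega
    have e1 := Nat.div_mul_cancel hS4
    have e2 := Nat.div_mul_cancel hS4'
    rw [h1] at e1
    have hpos : 0 < (n + 5).factorial / (12 * S') :=
      Nat.div_pos (Nat.le_of_dvd (Nat.factorial_pos _) hS4') (by omega)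
    have e3 := Nat.eq_of_mul_eq_mul_left hpos (e1.trans e2.symm)
    have e4 : S = S' := by omega
    rw [hS2, hS2', e4]

/-- `C(n) ≤ |𝓜_n|²` -/
lemma C_le (n : ℕ) : C n ≤ (M n).card ^ 2 := by
  classical
  have hC : C n = ∑ t ∈ F n, (r n t - 1) := by
    unfold C
    apply finsum_eq_sum_of_support_subset
    intro t ht
    rw [Function.mem_support] at ht
    exact Finset.mem_coe.mpr (mem_F_of_r (by omega))
  rw [hC]
  calc ∑ t ∈ F n, (r n t - 1) ≤ ∑ t ∈ F n,
        ((M n ×ˢ M n).filter (fun xy => xy.1 + xy.2 = t)).card := by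
        refine Finset.sum_le_sum fun t _ => ?_
        refine (Nat.sub_le _ _).trans ?_
        unfold r
        refine Finset.card_le_card ?_
        intro a ha
        rw [Finset.mem_filter] at ha ⊢
        exact ⟨ha.1, ha.2.2⟩
    _ = (M n ×ˢ M n).card := by
        refine (Finset.card_eq_sum_card_fiberwise ?_).symm
        intro a ha
        exact Finset.mem_coe.2 (Finset.mem_image_of_mem _ (Finset.mem_coe.1 ha))
    _ = _ := by rw [Finset.card_product, sq]

end Pool.Agent.V11205.MC
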